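import Mathlib
import Pool.Agent.H33.DM.Final

set_option autoImplicit false

namespace Pool.Agent.Results.MP_ce029f_lc.FullAnswer

/-- (i) There is a model of ZFC in which the diamond principle `DM.Diamond` holds.
(ii) If the diamond principle holds (the same sentence, for all sets with `∈`), then there is an
uncountable Boolean algebra `B` such that
(1) every uncountable subalgebra of `B` is isomorphic to `B`;
(2) every uncountable quotient `B / J` is isomorphic to `B`;
(3) every countable quotient `B / J` is isomorphic to a factor `{a | a ≤ b}` of `B`.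
The quotient is taken in the Boolean ring of `B` (the sum is the symmetric difference and the
product is the meet); its order as a Boolean algebra is `x ≤ y ↔ x * y = x`. -/
theorem result :
    (∃ (M : Type 1) (E : M → M → Prop), BV.IsZFC E ∧ DM.Diamond E) ∧
    (DM.Diamond (fun x y : ZFSet.{0} => x ∈ y) →
      ∃ (B : Type) (_ : BooleanAlgebra B), Uncountable B ∧
        (∀ C : BooleanSubalgebra B, Uncountable C → Nonempty (C ≃o B)) ∧
        (∀ J : Ideal (AsBoolRing B), Uncountable (AsBoolRing B ⧸ J) →
          Nonempty ((AsBoolRing B ⧸ J) ≃+* AsBoolRing B)) ∧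
        (∀ J : Ideal (AsBoolRing B), Countable (AsBoolRing B ⧸ J) →
          ∃ (b : B) (e : (AsBoolRing B ⧸ J) ≃ Set.Iic b), ∀ x y, e x ≤ e y ↔ x * y = x)) :=
  ⟨DM.exists_model, DM.exists_algebra⟩

end Pool.Agent.Results.MP_ce029f_lc.FullAnswer
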